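import Pool.Agent.Q92.PT.Main

/-!
# The vanishing periods of the adjoint object determine the smallest subtorsor

Let `K` be a field of algebraic numbers, `M` a motive (or a de Rham-Betti object) over `K` of rank `n` with period matrix
`c`, an invertible complex matrix, and let `P` be a `K`-subtorsor of `Iso (M_dR, M_B) = GL_n` which contains `c`, for example
the torsor `Ω^And_M` of motivated periods. Assume that the group `G = {x y⁻¹ | x, y ∈ P}` of `P` is reductive: its Lie
algebra is spanned by a subspace `Z` and by simple Lie algebras `s_1, …, s_r` which commute with each other and with `Z`.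

The periods of `End M = M ⊗ M^∨` are the numbers `tr (A c C c⁻¹)`, where `A` and `C` are matrices over `K`. Assume that
every vanishing period of `End M` is explained by `P`: if `tr (A c C c⁻¹) = 0`, then `tr (A x C x⁻¹) = 0` for all `x ∈ P`.
Assume furthermore that

(a) each `s_i` has a transcendental period, i.e. contains `c C c⁻¹` with `C` algebraic and `c C c⁻¹` not algebraic; or
(b) the vanishing periods of `End M` over the field of all algebraic numbers are explained by `P`, and each `s_i` contains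
`c C c⁻¹` for an algebraic matrix `C ≠ 0` (this is automatic if `c⁻¹ s_i c` is defined over the algebraic numbers).

1. Every `K`-subtorsor `T` which contains `c`, in particular the smallest one `Ω_M`, is stable under the derived group of `G`.

2. If the centre of `G` consists of the scalars, `G` is connected (generated by the scalars and by the exponentials of the
nilpotent elements of the `s_i`), and the determinant of the periods is transcendental, then `Ω_M = P`.

So for motives with connected motivic Galois group whose centre consists of the scalars, `Ω_M = Ω^dRB_M = Ω^And_M` follows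
from the vanishing single periods of `End M`; this is the part of the conjecture on linear relations between the products
`c_ab (c⁻¹)_de`. No other multilinear relation has to be considered.
-/

set_option autoImplicit false

open Matrix

namespace Pool.Agent.Results.MP_f11a48_ag.AdjointPeriods

variable {B : Type} [Fintype B] [DecidableEq B]

/-- `T` is (the set of complex points of) a `K`-subtorsor of `GL_B = Iso (M_dR, M_B)`: it is closed under `x y⁻¹ z`, and
it is defined in `GL_B` by polynomials with coefficients in `K`. -/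
def IsSubtorsor (K : Subfield ℂ) (T : Set (Matrix B B ℂ)) : Prop :=
  (∀ x ∈ T, ∀ y ∈ T, ∀ z ∈ T, x * y⁻¹ * z ∈ T) ∧ ∃ I : Set (MvPolynomial (B × B) K), ∀ x : Matrix B B ℂ, x ∈ T ↔
    IsUnit x ∧ ∀ p ∈ I, MvPolynomial.eval (fun b => x b.1 b.2) (MvPolynomial.map (algebraMap K ℂ) p) = 0

/-- `Ω` is the smallest `K`-subtorsor which contains the period matrix `c` -/
def IsOmega (K : Subfield ℂ) (c : Matrix B B ℂ) (Ω : Set (Matrix B B ℂ)) : Prop :=
  IsSubtorsor K Ω ∧ c ∈ Ω ∧ ∀ T : Set (Matrix B B ℂ), IsSubtorsor K T → c ∈ T → Ω ⊆ T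

/-- `w` belongs to the Lie algebra of the group `{x y⁻¹ | x, y ∈ P}`: the vector field `x ↦ w x` is tangent to `P` -/
def InLie (P : Set (Matrix B B ℂ)) (w : Matrix B B ℂ) : Prop :=
  ∀ F : MvPolynomial (B × B) ℂ, (∀ x ∈ P, MvPolynomial.eval (fun b => x b.1 b.2) F = 0) →
    ∀ x ∈ P, ∑ b : B × B, MvPolynomial.eval (fun b => x b.1 b.2) (MvPolynomial.pderiv b F) * (w * x) b.1 b.2 = 0

/-- the Lie algebra of the group of `P` is spanned by `Z` and the simple ideals `s_1, …, s_r` -/
structure Reductive (P : Set (Matrix B B ℂ)) {r : ℕ} (Z : Submodule ℂ (Matrix B B ℂ))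
    (s : Fin r → Submodule ℂ (Matrix B B ℂ)) : Prop where
  /-- `s_i` is contained in the Lie algebra -/
  inLie : ∀ i, ∀ u ∈ s i, InLie P u
  /-- the Lie algebra is contained in `Z + s_1 + … + s_r` -/
  sum : ∀ w, InLie P w → ∃ z ∈ Z, ∃ v : Fin r → Matrix B B ℂ, (∀ i, v i ∈ s i) ∧ w = z + ∑ i, v i
  /-- `Z` commutes with the `s_i` -/
  comm_Z : ∀ z ∈ Z, ∀ i, ∀ u ∈ s i, u * z = z * u
  /-- different `s_i` commute -/
  comm : ∀ i j, i ≠ j → ∀ u ∈ s i, ∀ v ∈ s j, u * v = v * u
  /-- `s_i` is a Lie algebra -/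
  lie : ∀ i, ∀ u ∈ s i, ∀ v ∈ s i, u * v - v * u ∈ s i
  /-- with centre zero -/
  centre : ∀ i, ∀ u ∈ s i, (∀ v ∈ s i, u * v = v * u) → u = 0
  /-- and without proper ideals -/
  simple : ∀ i, ∀ W : Submodule ℂ (Matrix B B ℂ), W ≤ s i → (∀ u ∈ s i, ∀ w ∈ W, u * w - w * u ∈ W) →
    W = ⊥ ∨ W = s i
  /-- spanned by its nilpotent matrices -/
  nilpotent : ∀ i, s i ≤ Submodule.span ℂ {E | E ∈ s i ∧ IsNilpotent E}

/-- the derived group: generated by the exponentials of the nilpotent elements of the simple ideals -/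
def DerivedGroup {r : ℕ} (s : Fin r → Submodule ℂ (Matrix B B ℂ)) : Submonoid (Matrix B B ℂ) :=
  Submonoid.closure {g | ∃ i, ∃ E ∈ s i, IsNilpotent E ∧ g = IsNilpotent.exp E}

/-- the group of `P` is generated by the scalars and by the exponentials of the nilpotent elements of the `s_i` -/
def Generated (P : Set (Matrix B B ℂ)) {r : ℕ} (s : Fin r → Submodule ℂ (Matrix B B ℂ)) : Prop :=
  ∀ x ∈ P, ∀ y ∈ P, x * y⁻¹ ∈ Submonoid.closure ({g : Matrix B B ℂ | ∃ z : ℂ, z ≠ 0 ∧ g = z • 1} ∪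
    {g | ∃ i, ∃ E ∈ s i, IsNilpotent E ∧ g = IsNilpotent.exp E})

/-- every vanishing period `tr (A c C c⁻¹)` of `End M`, `A` and `C` over `K`, is explained by `P` -/
def Explained (K : Subfield ℂ) (c : Matrix B B ℂ) (P : Set (Matrix B B ℂ)) : Prop :=
  ∀ A C : Matrix B B ℂ, (∀ i j, A i j ∈ K) → (∀ i j, C i j ∈ K) → (A * c * C * c⁻¹).trace = 0 →
    ∀ x ∈ P, (A * x * C * x⁻¹).trace = 0

/-- the field of all algebraic numbers -/
noncomputable def algebraicNumbers : Subfield ℂ := (algebraicClosure ℚ ℂ).toSubfield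

theorem mem_algebraicNumbers (x : ℂ) : x ∈ algebraicNumbers ↔ IsAlgebraic ℚ x := mem_algebraicClosure_iff

theorem isSubtorsor_iff {K : Subfield ℂ} {T : Set (Matrix B B ℂ)} :
    IsSubtorsor K T ↔ Pool.Agent.TH127.PT.IsSubtorsor K T := by
  constructor
  · rintro ⟨h1, I, h2⟩
    refine ⟨fun x hx => ((h2 x).1 hx).1, h1, (MvPolynomial.map (algebraMap K ℂ)) '' I, ?_, fun x => ?_⟩
    · rintro _ ⟨p, -, rfl⟩ m
      rw [MvPolynomial.coeff_map]
      exact (p.coeff m).2
    · rw [h2]
      refine and_congr_right fun _ => ⟨?_, ?_⟩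
      · rintro h _ ⟨p, hp, rfl⟩
        exact h p hp
      · intro h p hp
        exact h _ ⟨p, hp, rfl⟩
  · intro h
    obtain ⟨I, h1, h2⟩ := h.algebraic
    refine ⟨h.torsor, {p | MvPolynomial.map (algebraMap K ℂ) p ∈ I}, fun x => ?_⟩
    rw [h2]
    refine and_congr_right fun _ => ⟨?_, ?_⟩
    · intro h3 p hp
      exact h3 _ hp
    · intro h3 p hp
      obtain ⟨P0, hP0⟩ := Pool.Agent.Y123.ST.exists_map p (h1 p hp)
      rw [← hP0]
      exact h3 P0 (by rw [Set.mem_ofPred_eq, hP0]; exact hp)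

theorem extend {K L : Subfield ℂ} (h : K ≤ L) {T : Set (Matrix B B ℂ)} (hT : Pool.Agent.TH127.PT.IsSubtorsor K T) :
    Pool.Agent.TH127.PT.IsSubtorsor L T := by
  obtain ⟨I, h1, h2⟩ := hT.algebraic
  exact ⟨hT.isUnit, hT.torsor, I, fun p hp m => h (h1 p hp m), h2⟩

theorem dec {P : Set (Matrix B B ℂ)} {r : ℕ} {Z : Submodule ℂ (Matrix B B ℂ)} {s : Fin r → Submodule ℂ (Matrix B B ℂ)}
    (h : Reductive P Z s) : Pool.Agent.Q92.PT.Dec P Z s :=
  ⟨h.inLie, h.sum, h.comm_Z, h.comm, h.lie, h.centre, h.simple, h.nilpotent⟩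

theorem result (K : Subfield ℂ) (hK : ∀ x ∈ K, IsAlgebraic ℚ x) (P : Set (Matrix B B ℂ)) (c : Matrix B B ℂ)
    (hP : IsSubtorsor K P) (hcP : c ∈ P) {r : ℕ} (Z : Submodule ℂ (Matrix B B ℂ))
    (s : Fin r → Submodule ℂ (Matrix B B ℂ)) (hd : Reductive P Z s)
    (h : -- (a)
      (Explained K c P ∧ ∀ i, ∃ C : Matrix B B ℂ, (∀ a b, IsAlgebraic ℚ (C a b)) ∧ c * C * c⁻¹ ∈ s i ∧
        ∃ a b, Transcendental ℚ ((c * C * c⁻¹) a b)) ∨
      -- (b)
      (Explained algebraicNumbers c P ∧ ∀ i, ∃ C : Matrix B B ℂ, (∀ a b, IsAlgebraic ℚ (C a b)) ∧ C ≠ 0 ∧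
        c * C * c⁻¹ ∈ s i)) :
    -- 1
    (∀ T : Set (Matrix B B ℂ), IsSubtorsor K T → c ∈ T → ∀ g ∈ DerivedGroup s, ∀ x ∈ T, g * x ∈ T) ∧
    -- 2
    (Z = Submodule.span ℂ {1} → Generated P s → Transcendental ℚ c.det → IsOmega K c P) := by
  have hle : K ≤ algebraicNumbers := fun x hx => (mem_algebraicNumbers x).2 (hK x hx)
  have hP' := isSubtorsor_iff.1 hP
  have hK' : ∀ x ∈ algebraicNumbers, IsAlgebraic ℚ x := fun x hx => (mem_algebraicNumbers x).1 hx
  rcases h with ⟨hv, hna⟩ | ⟨hv, hrat⟩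
  · refine ⟨fun T hT hcT g hg => ?_, fun hZ hgen hdet => ⟨hP, hcP, fun T hT hcT => ?_⟩⟩
    · exact Pool.Agent.Q92.PT.derived hK hP' hcP (dec hd) (isSubtorsor_iff.1 hT) hcT hv hna hg
    · subst hZ
      exact Pool.Agent.Q92.PT.full hK hP' hcP (dec hd) hgen (isSubtorsor_iff.1 hT) hcT hv hdet hna
  · have hP'' := extend hle hP'
    have hna : ∀ i, ∃ C : Matrix B B ℂ, (∀ a b, IsAlgebraic ℚ (C a b)) ∧ c * C * c⁻¹ ∈ s i ∧
        ∃ a b, Transcendental ℚ ((c * C * c⁻¹) a b) := by
      intro i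
      obtain ⟨C, hC, hC0, hCs⟩ := hrat i
      exact ⟨C, hC, hCs, Pool.Agent.Q92.PT.na_of_vp (fun x hx => (mem_algebraicNumbers x).2 hx) hP'' hcP (dec hd) hv hC
        hC0 hCs⟩
    refine ⟨fun T hT hcT g hg => ?_, fun hZ hgen hdet => ⟨hP, hcP, fun T hT hcT => ?_⟩⟩
    · exact Pool.Agent.Q92.PT.derived hK' hP'' hcP (dec hd) (extend hle (isSubtorsor_iff.1 hT)) hcT hv hna hg
    · subst hZ
      exact Pool.Agent.Q92.PT.full hK' hP'' hcP (dec hd) hgen (extend hle (isSubtorsor_iff.1 hT)) hcT hv hdet hna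

end Pool.Agent.Results.MP_f11a48_ag.AdjointPeriods
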