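import Pool.Agent.Q135.Blk.Omega
import Pool.Agent.TH127.PG.Cond
import Pool.Agent.TH127.PG.TwoPairs2

/-!
# Motives of CM type in blocks separated by partial complex conjugations

Let `A i = (E i, Φ i)` be finitely many CM types, and let `M` be the sum of the motives `h^1 (A i)`
of the corresponding abelian varieties. All tensor spaces of `M` are, up to Tate twists and duals,
contained in the cohomology of the products `X` of copies of the `A i`. By the theorem of Deligne and
André Hodge classes on `X` are motivated, so over the field of all algebraic numbers
`Ω^dRB_M = Ω^And_M` says that every de Rham-Betti class in `H^{2k}(X)(k)`, for all `X` and `k`, is a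
Hodge class (`AllHodge`).

The indices `i` are distributed into blocks such that for every block some automorphism of the
complex numbers conjugates the embeddings of the fields `E i` of the block and fixes the embeddings of
all the other fields (`BlocksFlip`): the Galois closures of the fields of the block and of the other
fields have only a totally real field in common. Nothing is assumed on the fields and types inside of
the blocks.

1. All de Rham-Betti classes on all products of copies of the `A i` are Hodge classes if and only if
   for every block all de Rham-Betti classes on all products of copies of the members of the block
   are Hodge classes.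
2. This is the case if every block satisfies one of the two conditions (`BlockKnown`), different
   ones for different blocks:
   - every family of CM subfields with separated excess functions is abelian over `ℚ`, or mild, or
     has an embedding whose class is good; and every CM subfield is abelian, or has excess of constant
     absolute value, or contains no smaller CM field and has excesses with at most one nonzero
     absolute value, and isomorphic CM subfields of different members are abelian over `ℚ`;
   - the CM types are primitive and pairwise inequivalent, and the classes of embeddings consist of
     translates and have at most two pairs of conjugate embeddings.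
3. If all de Rham-Betti classes on all products of copies of the `A i` are Hodge classes, then for
   every field `K` of algebraic numbers that is linearly disjoint from the composite of the images of
   the `E i` (for instance `K = ℚ`), and every abelian variety over `K` that is geometrically
   isogenous to a product of copies of the `A i`, with comparison isomorphism `c`, the smallest
   `K`-subtorsor `Ω_M` that contains `c` contains `c · MT(ℂ)`; as `Ω^And_M` is irreducible over `K` and
   `c · MT(ℂ)` is one of its geometrically irreducible components, this is
   `Ω_M = Ω^dRB_M = Ω^And_M`. By 2. this holds in particular if every block is `BlockKnown`.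

The periods enter as a `PeriodSystem` (helper537): a nonzero number `θ A φ` for every CM type
`A = (E, Φ)` and every embedding `φ` of `E`, such that the theorem of Bost (de Rham-Betti classes of
degree two on abelian varieties of CM type are Hodge classes; a consequence of the theorem of
Wüstholz) and the theorem of Deligne (Hodge classes on abelian varieties are de Rham-Betti classes)
hold. Both are theorems for the true periods.

The proof of 1.: a de Rham-Betti class gives relations between the logarithms (modulo logarithms of
algebraic numbers) of the periods, which hold together with their conjugates. The difference of the
relation and its image under the partial conjugation of a block is twice the part of the relation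
that belongs to the block, since the logarithm of the normalised period of the conjugate embedding
is the negative. Two copies of each letter of this part give a de Rham-Betti class of even degree on
a product of members of the block.
-/

set_option autoImplicit false

namespace Pool.Agent.Results.MP_f11a48_ag.BlocksOfCMMotives

open NumberField Module Pool.Agent.W547.KB Pool.Agent.W537.PC Pool.Agent.W527.Per
  Pool.Agent.W527.Struct Pool.Agent.TH127.SC Pool.Agent.TH127.PG Pool.Agent.TH127.PT Matrix
  Pool.Agent.Q135.Blk

/-- The smallest `K`-subtorsor which contains `M`: the intersection of all of them. -/
def smallestSubtorsor {N : Type} [Fintype N] [DecidableEq N] (K : Subfield ℂ)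
    (M : Matrix N N ℂ) : Set (Matrix N N ℂ) :=
  {X | ∀ T : Set (Matrix N N ℂ), IsSubtorsor K T → M ∈ T → X ∈ T}

/-- For all fields `K` of algebraic numbers that are linearly disjoint from the fields of the CM
types `A i`, and for all period matrices `M` of abelian varieties over `K` that are geometrically
isogenous to products of copies of the `A i`, the smallest `K`-subtorsor that contains `M` contains
`M · MT(ℂ)`. -/
def SmallestIsMotivic (P : PeriodSystem) {ι : Type} [Fintype ι] (A : ι → CMPair) : Prop :=
  ∀ (K : Subfield ℂ), (∀ x ∈ K, IsAlgebraic ℚ x) → LinearlyDisjoint A K →
    ∀ {J : Type} [Fintype J] (t : J → ι) {N : Type} [Fintype N] [DecidableEq N]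
      (e : Basis N ℚ (∀ a, (A (t a)).E)) (M : Matrix N N ℂ), IsPeriodMatrix A t P e M →
      ∀ g ∈ mumfordTate A t e, M * g ∈ smallestSubtorsor K M

/-- One of the two known conditions on the members of a block. -/
def BlockKnown {ι : Type} (A : ι → CMPair) : Prop :=
  (AbelianMildOrGood A ∧ SimpleSubfields A) ∨
    (IsPrimitive A ∧ ∀ x : Embs (fun i => (A i).E), AtMostTwoPairs x)

/-- **De Rham-Betti classes and the smallest subtorsor for motives of CM type in blocks separated by
partial complex conjugations.** -/
theorem result (P : PeriodSystem) (hBost : P.Bost) (hDeligne : P.Deligne) {ι β : Type} [Fintype ι]
    (A : ι → CMPair) (B : ι → β) (hflip : BlocksFlip (fun i => (A i).E) B) :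
    (AllHodge P A ↔ ∀ b, AllHodge P (fun i : {i // B i = b} => A i)) ∧
    ((∀ b, BlockKnown (fun i : {i // B i = b} => A i)) → AllHodge P A) ∧
    (AllHodge P A → SmallestIsMotivic P A) := by
  have h1 : (∀ b, AllHodge P (fun i : {i // B i = b} => A i)) → AllHodge P A :=
    allHodge_of_blocks hDeligne B hflip
  refine ⟨⟨fun h b => allHodge_block B h b, h1⟩, fun h => h1 fun b => ?_, ?_⟩
  · have _ : Fintype {i // B i = b} := Fintype.ofFinite _
    rcases h b with ⟨h2, h3⟩ | ⟨h2, h3⟩
    · exact (allHodge_iff_good _ hBost hDeligne h2).2
        (twoTerm_of_simpleSubfields _ hBost hDeligne h3)
    · exact allHodge_of_twoPairs hBost hDeligne h2 h3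
  · intro hall K hK hKA J _ t N _ _ e M hM g hg T hTs hMT
    exact mem_of_subtorsor_allHodge hDeligne hall hK hKA hM hTs hMT hg

end Pool.Agent.Results.MP_f11a48_ag.BlocksOfCMMotives
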