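import Pool.Agent.Q67.TP.Final

/-!
# MP_f11a48_ag: zero-one laws for Hodge classes and de Rham-Betti classes
-/

set_option autoImplicit false

open CategoryTheory AlgebraicGeometry

universe u

namespace Pool.Agent.Results.MP_f11a48_ag.DeRhamBettiZeroOne

open Pool.Agent.H914
open Pool.Agent.Q67.TP.S

/-- Let `S` be a theory consisting of a Hodge theory (a Weil cohomology theory with rational
coefficients with a Hodge decomposition of its cohomology with complex coefficients) and of the
algebraic de Rham cohomology over the field of the algebraic numbers, a graded subspace of the
cohomology with complex coefficients which is stable under products and pull-backs and contains the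
classes `(2 π i) ^ j cl(z)`. Let `u` be a polarisation of the cohomology of `X` which is given by
classes which are both Hodge classes and de Rham-Betti classes. (Such a polarisation exists for
every smooth projective variety over the algebraic numbers, by the hard Lefschetz theorem and the
Hodge-Riemann relations.) No comparison between Hodge classes and de Rham-Betti classes is assumed.

* The quotients of the dimension of the space of the Hodge classes on `X^n` by the dimension of the
  space of the classes which are both Hodge classes and de Rham-Betti classes converge to `1` or
  to infinity; the limit is `1` if and only if all Hodge classes on all powers of `X` are de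
  Rham-Betti classes, and if and only if all operators on the cohomology of `X` which kill (as
  derivations) the classes which are both Hodge and de Rham-Betti on all powers of `X` kill the
  Hodge classes on all powers.
* The same holds with the roles of the Hodge classes and of the de Rham-Betti classes exchanged.
* If the transcendence degree of the field generated by the periods of `X` is the dimension of the
  Lie algebra of the operators which kill the classes of both kinds on all powers of `X`, plus one
  (its largest possible value), then all de Rham-Betti classes on all powers of `X` are Hodge
  classes. -/
theorem result {k : Type u} [Field k] {𝒱 : VarClass k} {ops : CycleOps 𝒱} (S : Theory ops)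
    (X : 𝒱.Obj) [Nontrivial (RH S.T X)] (u : ROp S.T X)
    (hu : PolarisedBy (meet (hodge S.T) (drb S)) X u) :
    ∃ NH NR : ℕ∞, ZeroOne (hodge S.T) (drb S) X NH ∧ ZeroOne (drb S) (hodge S.T) X NR ∧
      (trdegOf (periods S X) = (lieDim (meet (hodge S.T) (drb S)) X + 1 : ℕ) → NR = 1) :=
  zero_one_law S X u hu

end Pool.Agent.Results.MP_f11a48_ag.DeRhamBettiZeroOne
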