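import Pool.Agent.Q311.DRB

/-!
# Relations of degree two determine the smallest subtorsor of periods

Let `K` be a field of algebraic numbers and `M = M_1 ⊕ … ⊕ M_N` a sum of polarised de Rham-Betti objects over `K` of the
same odd weight `w` and the same rank `n`, for example `M_j = h^1` of an abelian variety of dimension `n / 2`: for `M_j`, the
polarisation is given by matrices `Q_j` over `K` (on the de Rham side) and `polB n` (on the Betti side; every nondegenerate
alternating form over `ℚ` has this matrix in some basis), and the period matrix `c_j` satisfies `c_j Q_j c_jᵀ = l polB` with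
the transcendental number `l = (2πi)^w`. The group `Aut` of these data consists of `N`-tuples of symplectic similitudes with
the same multiplier, its torsor is `polTorsor Q`. For a motive `M` the polarisations are motivated (and algebraic) classes,
so that `Z_M ⊆ Ω_M ⊆ Ω^dRB_M ⊆ Ω^And_M ⊆ polTorsor`.

1. If all homogeneous quadratic relations between the periods with algebraic coefficients hold on `polTorsor`, then
`Ω_M = polTorsor`, so that `Ω_M = Ω^dRB_M = Ω^And_M`.

2. The same is true if this is only known for the quadratic relations with coefficients in `K`, and if no `c_j` is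
proportional to a matrix with algebraic entries.

So relations of higher degree which come from subtorsors (for example from classes on tensor spaces) do not exist if there are
no unexpected quadratic relations. In `HyperellipticSmallestSubtorsor` (starting tree) this is shown under the assumption that
there are no relations of degree at most `d(n)`, for an unspecified number `d(n)` which comes from the theorem of Jordan on
finite linear groups; there it is part 1.
-/

set_option autoImplicit false

open Matrix

namespace Pool.Agent.Results.MP_f11a48_ag.QuadraticRelationsSuffice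

/-- `T` is (the set of complex points of) a `K`-subtorsor of `GL_B = Iso (M_dR, M_B)`: it is closed under `x y⁻¹ z`, and
it is defined in `GL_B` by polynomials with coefficients in `K`. -/
def IsSubtorsor (K : Subfield ℂ) {B : Type} [Fintype B] [DecidableEq B] (T : Set (Matrix B B ℂ)) : Prop :=
  (∀ x ∈ T, ∀ y ∈ T, ∀ z ∈ T, x * y⁻¹ * z ∈ T) ∧ ∃ I : Set (MvPolynomial (B × B) K), ∀ x : Matrix B B ℂ, x ∈ T ↔
    IsUnit x ∧ ∀ p ∈ I, MvPolynomial.eval (fun b => x b.1 b.2) (MvPolynomial.map (algebraMap K ℂ) p) = 0

/-- `Ω` is the smallest `K`-subtorsor which contains the period matrix `c` -/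
def IsOmega (K : Subfield ℂ) {B : Type} [Fintype B] [DecidableEq B] (c : Matrix B B ℂ) (Ω : Set (Matrix B B ℂ)) : Prop :=
  IsSubtorsor K Ω ∧ c ∈ Ω ∧ ∀ T : Set (Matrix B B ℂ), IsSubtorsor K T → c ∈ T → Ω ⊆ T

/-- the alternating form with entries `2 (-1)^r` at `(r, s)`, `|r - s| = 1` -/
def polB (n : ℕ) : Matrix (Fin n) (Fin n) ℚ :=
  Matrix.of fun r s => if (r : ℕ) = s + 1 ∨ (s : ℕ) = r + 1 then 2 * (-1) ^ (r : ℕ) else 0

/-- `(X_1, …, X_N)` respects the polarisations, with multiplier `μ` -/
def Respects {n N : ℕ} (Q : Fin N → Matrix (Fin n) (Fin n) ℂ) (X : Fin N → Matrix (Fin n) (Fin n) ℂ) (μ : ℂ) : Prop :=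
  ∀ j, X j * Q j * (X j)ᵀ = μ • (polB n).map (algebraMap ℚ ℂ)

/-- the torsor of the block diagonal matrices which respect the polarisations, with the same multiplier -/
def polTorsor {n N : ℕ} (Q : Fin N → Matrix (Fin n) (Fin n) ℂ) : Set (Matrix (Fin n × Fin N) (Fin n × Fin N) ℂ) :=
  {x | ∃ (X : Fin N → Matrix (Fin n) (Fin n) ℂ) (μ : ℂ), μ ≠ 0 ∧ x = Matrix.blockDiagonal X ∧ Respects Q X μ}

/-- the value of a polynomial over `K` at the entries of the matrices `X_j` -/
noncomputable def value {n N : ℕ} {K : Subfield ℂ} (X : Fin N → Matrix (Fin n) (Fin n) ℂ)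
    (P : MvPolynomial (Fin N × Fin n × Fin n) K) : ℂ :=
  MvPolynomial.eval (fun s => X s.1 s.2.1 s.2.2) (MvPolynomial.map (algebraMap K ℂ) P)

/-- all homogeneous quadratic relations over `K` between the entries of the matrices `c_j` hold on the torsor of the
polarisations -/
def NoQuadraticRelation {n N : ℕ} (K : Subfield ℂ) (Q c : Fin N → Matrix (Fin n) (Fin n) ℂ) : Prop :=
  ∀ P : MvPolynomial (Fin N × Fin n × Fin n) K, P.IsHomogeneous 2 → value c P = 0 →
    ∀ (X : Fin N → Matrix (Fin n) (Fin n) ℂ) (μ : ℂ), μ ≠ 0 → Respects Q X μ → value X P = 0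

/-- the field of all algebraic numbers -/
noncomputable def algebraicNumbers : Subfield ℂ := (algebraicClosure ℚ ℂ).toSubfield

theorem result (n N : ℕ) (hn : Even n) (hn0 : 0 < n) (hN : 0 < N) (K : Subfield ℂ) (hK : ∀ x ∈ K, IsAlgebraic ℚ x)
    (Q c : Fin N → Matrix (Fin n) (Fin n) ℂ) (hQ : ∀ j a b, Q j a b ∈ K) (l : ℂ) (hl : Transcendental ℚ l)
    (hc : Respects Q c l) :
    -- 1
    (NoQuadraticRelation algebraicNumbers Q c → IsOmega K (Matrix.blockDiagonal c) (polTorsor Q)) ∧
    -- 2
    (NoQuadraticRelation K Q c →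
      (∀ j, ¬ ∃ (ν : ℂ) (a : Matrix (Fin n) (Fin n) ℂ), (∀ r s, IsAlgebraic ℚ (a r s)) ∧ c j = ν • a) →
      IsOmega K (Matrix.blockDiagonal c) (polTorsor Q)) :=
  ⟨fun h => Pool.Agent.Q311.DRB.quad_Qb hn hn0 hN hK hQ hl hc h,
    fun h h' => Pool.Agent.Q311.DRB.quad_out hn hn0 hN hK hQ hl hc h (Or.inr h')⟩

end Pool.Agent.Results.MP_f11a48_ag.QuadraticRelationsSuffice
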